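import Mathlib

set_option autoImplicit false

open Set MeasureTheory Filter

namespace Pool.Agent.R193.Coc

/-- The group `SL₂(ℝ)`. -/
abbrev G : Type := Matrix.SpecialLinearGroup (Fin 2) ℝ

/-- Lebesgue measure on `[0, 1)`. -/
noncomputable def mu : Measure ℝ := volume.restrict (Ico (0 : ℝ) 1)

/-- An interval exchange transformation on `d` intervals: `[0, 1)` is cut at the points
`0 = cut 0 < cut 1 < ... < cut d = 1`, the map translates the interval `[cut j, cut (j + 1))` by
`shift j`, and it is a bijection of `[0, 1)`. -/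
structure IET (d : ℕ) where
  cut : Fin (d + 1) → ℝ
  mono : StrictMono cut
  first : cut 0 = 0
  last : cut (Fin.last d) = 1
  shift : Fin d → ℝ
  map : ℝ → ℝ
  map_eq : ∀ j, ∀ x ∈ Ico (cut j.castSucc) (cut j.succ), map x = x + shift j
  bij : BijOn map (Ico 0 1) (Ico 0 1)

/-- `ρ` is the piecewise constant cocycle with the value `M j` on the interval with the number
`j`. -/
def IsPC {d : ℕ} (I : IET d) (M : Fin d → G) (ρ : ℝ → G) : Prop :=
  ∀ j, ∀ x ∈ Ico (I.cut j.castSucc) (I.cut j.succ), ρ x = M j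

/-- A subgroup of `SL₂(ℝ)` is Zariski dense if every polynomial in the matrix entries which
vanishes on it vanishes on `SL₂(ℝ)`. -/
def ZariskiDense (H : Subgroup G) : Prop :=
  ∀ p : MvPolynomial (Fin 2 × Fin 2) ℝ,
    (∀ A ∈ H, MvPolynomial.eval (fun ij => A ij.1 ij.2) p = 0) →
    ∀ A : G, MvPolynomial.eval (fun ij => A ij.1 ij.2) p = 0

/-- A measurable matrix function. -/
def MeasMat (B : ℝ → G) : Prop := ∀ i j, Measurable fun x => B x i j

/-- Parabolic type: measurably conjugate to an upper triangular cocycle with positive diagonal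
entries `v`, `1 / v`, where `log v` has mean zero. -/
def ParabolicType (T : ℝ → ℝ) (ρ : ℝ → G) : Prop :=
  ∃ (B : ℝ → G) (v m : ℝ → ℝ), MeasMat B ∧ Measurable v ∧ Measurable m ∧ (∀ x, 0 < v x) ∧
    Integrable (fun x => Real.log (v x)) mu ∧ ∫ x, Real.log (v x) ∂mu = 0 ∧
    ∀ᵐ x ∂mu, ((B (T x) * ρ x * (B x)⁻¹ : G) : Matrix (Fin 2) (Fin 2) ℝ) =
      !![v x, m x; 0, 1 / v x]

/-- Elliptic type: measurably conjugate to a cocycle of rotations. -/
def EllipticType (T : ℝ → ℝ) (ρ : ℝ → G) : Prop :=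
  ∃ (B : ℝ → G) (θ : ℝ → ℝ), MeasMat B ∧ Measurable θ ∧
    ∀ᵐ x ∂mu, ((B (T x) * ρ x * (B x)⁻¹ : G) : Matrix (Fin 2) (Fin 2) ℝ) =
      !![Real.cos (θ x), -Real.sin (θ x); Real.sin (θ x), Real.cos (θ x)]

end Pool.Agent.R193.Coc
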