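import Mathlib

set_option autoImplicit false

open Set MeasureTheory Filter

namespace Pool.Agent.R193.Coc

/-- the rotation of `[0, 1)` -/
noncomputable def rot (α : ℝ) (x : ℝ) : ℝ := Int.fract (x + α)

lemma rot_meas (α : ℝ) : Measurable (rot α) := by
  unfold rot
  exact measurable_fract.comp (measurable_id.add_const α)

lemma rot_mem (α x : ℝ) : rot α x ∈ Ico (0 : ℝ) 1 := ⟨Int.fract_nonneg _, Int.fract_lt_one _⟩

lemma rot_rot (α β x : ℝ) : rot α (rot β x) = rot (β + α) x := by
  unfold rot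
  rw [Int.fract_eq_fract]
  refine ⟨-⌊x + β⌋, ?_⟩
  have := Int.self_sub_floor (x + β)
  push_cast
  rw [← this]
  ring

/-- the representative in `[0, 1)` -/
noncomputable def rep (y : UnitAddCircle) : ℝ := (AddCircle.equivIco 1 0 y : ℝ)

lemma rep_coe {x : ℝ} (hx : x ∈ Ico (0 : ℝ) 1) : rep (x : UnitAddCircle) = x := by
  unfold rep
  have hx' : x ∈ Ico (0 : ℝ) (0 + 1) := by simpa using hx
  rw [AddCircle.equivIco_coe_eq hx']

lemma coe_rep (y : UnitAddCircle) : ((rep y : ℝ) : UnitAddCircle) = y := AddCircle.coe_equivIco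

lemma coe_fract (x : ℝ) : ((Int.fract x : ℝ) : UnitAddCircle) = (x : UnitAddCircle) := by
  have : Int.fract x = x - ⌊x⌋ := rfl
  rw [this, AddCircle.coe_sub]
  have h : (((⌊x⌋ : ℤ) : ℝ) : UnitAddCircle) = 0 := by
    rw [AddCircle.coe_eq_zero_iff]
    exact ⟨⌊x⌋, by simp⟩
  rw [h, sub_zero]

lemma rep_meas : Measurable rep :=
  measurable_subtype_coe.comp (AddCircle.measurableEquivIco (1 : ℝ) 0).measurable

lemma rep_mp : MeasurePreserving rep volume (volume.restrict (Ico (0 : ℝ) 1)) := by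
  refine ⟨rep_meas, ?_⟩
  have h1 := UnitAddCircle.measurePreserving_mk 0
  have h2 : (volume.restrict (Ioc (0 : ℝ) (0 + 1))) = volume.restrict (Ico (0 : ℝ) 1) := by
    rw [zero_add]
    exact Measure.restrict_congr_set (Ioc_ae_eq_Icc.trans Ico_ae_eq_Icc.symm)
  rw [h2] at h1
  rw [← h1.map_eq, Measure.map_map rep_meas h1.measurable]
  have : (rep ∘ ((↑) : ℝ → UnitAddCircle)) =ᵐ[volume.restrict (Ico (0 : ℝ) 1)] id := by
    filter_upwards [ae_restrict_mem measurableSet_Ico] with x hx
    exact rep_coe hx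
  rw [Measure.map_congr this, Measure.map_id]

lemma order_zero {α : ℝ} (h : Irrational α) : addOrderOf (α : UnitAddCircle) = 0 := by
  rw [addOrderOf_eq_zero_iff']
  intro n hn e
  have : ((n * α : ℝ) : UnitAddCircle) = 0 := by
    rw [← e, ← AddCircle.coe_nsmul, nsmul_eq_mul]
  rw [AddCircle.coe_eq_zero_iff] at this
  obtain ⟨m, hm⟩ := this
  rw [zsmul_eq_mul, mul_one] at hm
  apply (h.natCast_mul hn.ne').ne_int m
  exact hm.symm

/-- irrational rotations of `[0, 1)` are ergodic -/
theorem rot_ergodic {α : ℝ} (h : Irrational α) :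
    Ergodic (rot α) (volume.restrict (Ico (0 : ℝ) 1)) := by
  have h1 : Ergodic (fun y : UnitAddCircle => y + (α : UnitAddCircle)) volume :=
    AddCircle.ergodic_add_right.2 (order_zero h)
  refine rep_mp.ergodic_of_ergodic_semiconj h1 (rot_meas α) ?_
  intro y
  show rep (y + (α : UnitAddCircle)) = rot α (rep y)
  have : (y + (α : UnitAddCircle)) = ((rot α (rep y) : ℝ) : UnitAddCircle) := by
    unfold rot
    rw [coe_fract, AddCircle.coe_add, coe_rep]
  rw [this, rep_coe (rot_mem _ _)]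

end Pool.Agent.R193.Coc
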