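import Pool.Agent.R193.Coc.Zar
import Pool.Agent.R193.Coc.Rot

set_option autoImplicit false

open Set MeasureTheory Filter

namespace Pool.Agent.R193.Coc

/-- the angle -/
noncomputable def al : ℝ := √2 - 1

lemma al_irr : Irrational al := by
  have := irrational_sqrt_two.sub_intCast 1
  simpa [al] using this

lemma al_lt : al < 1 / 2 := by
  unfold al
  have h : √2 < 3 / 2 := by
    rw [Real.sqrt_lt' (by norm_num)]; norm_num
  linarith

lemma al_gt : 1 / 3 < al := by
  unfold al
  have h : 4 / 3 < √2 := by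
    rw [Real.lt_sqrt (by norm_num)]; norm_num
  linarith

lemma rot_lo {x : ℝ} (h0 : 0 ≤ x) (h1 : x < 1 - al) : rot al x = x + al := by
  have := al_gt
  unfold rot
  rw [Int.fract_eq_self]
  exact ⟨by linarith, by linarith⟩

lemma rot_hi {x : ℝ} (h0 : 1 - al ≤ x) (h1 : x < 1) : rot al x = x + (al - 1) := by
  have := al_lt
  unfold rot
  have e : x + al = (x + (al - 1)) + (1 : ℤ) := by push_cast; ring
  rw [e, Int.fract_add_intCast, Int.fract_eq_self]
  exact ⟨by linarith, by linarith⟩

/-- the interval exchange: the rotation by `√2 - 1`, cut at `1 - 2α`, `1 - α`, `2 - 3α` -/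
noncomputable def ex : IET 4 where
  cut := ![0, 1 - 2 * al, 1 - al, 2 - 3 * al, 1]
  mono := by
    have h1 := al_lt
    have h2 := al_gt
    rw [Fin.strictMono_iff_lt_succ]
    intro i
    fin_cases i <;> simp <;> linarith
  first := rfl
  last := rfl
  shift := ![al, al, al - 1, al - 1]
  map := rot al
  map_eq := by
    have h1 := al_lt
    have h2 := al_gt
    intro j x hx
    fin_cases j
    · simp at hx ⊢
      exact rot_lo hx.1 (by linarith [hx.2])
    · simp at hx ⊢
      exact rot_lo (by linarith [hx.1]) (by linarith [hx.2])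
    · simp at hx ⊢
      exact rot_hi (by linarith [hx.1]) (by linarith [hx.2])
    · simp at hx ⊢
      exact rot_hi (by linarith [hx.1]) (by linarith [hx.2])
  bij := by
    refine ⟨fun x _ => rot_mem al x, ?_, ?_⟩
    · intro x hx y hy e
      have h1 : rot (-al) (rot al x) = rot (-al) (rot al y) := by rw [e]
      rw [rot_rot, rot_rot, add_neg_cancel] at h1
      unfold rot at h1
      rwa [add_zero, add_zero, Int.fract_eq_self.2 hx, Int.fract_eq_self.2 hy] at h1
    · intro y hy
      refine ⟨rot (-al) y, rot_mem _ _, ?_⟩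
      rw [rot_rot, neg_add_cancel]
      unfold rot
      rw [add_zero, Int.fract_eq_self.2 hy]

/-- the conjugating function -/
noncomputable def Bf (P Q : G) (x : ℝ) : G :=
  if x < 1 - 2 * al then 1 else if x < 1 - al then P else Q

/-- the cocycle -/
noncomputable def rh (C P Q : G) (x : ℝ) : G := (Bf P Q (rot al x))⁻¹ * C * Bf P Q x

/-- the values of the cocycle -/
noncomputable def Mv (C P Q : G) : Fin 4 → G := ![P⁻¹ * C, Q⁻¹ * C * P, C * Q, P⁻¹ * C * Q]

lemma Bf0 (P Q : G) {x : ℝ} (h : x < 1 - 2 * al) : Bf P Q x = 1 := by simp [Bf, h]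

lemma Bf1 (P Q : G) {x : ℝ} (h : 1 - 2 * al ≤ x) (h' : x < 1 - al) : Bf P Q x = P := by
  simp [Bf, h', not_lt.2 h]

lemma Bf2 (P Q : G) {x : ℝ} (h : 1 - al ≤ x) : Bf P Q x = Q := by
  have := al_gt
  simp [Bf, not_lt.2 h, not_lt.2 (show 1 - 2 * al ≤ x by linarith)]

lemma rh_pc (C P Q : G) : IsPC ex (Mv C P Q) (rh C P Q) := by
  have h1 := al_lt
  have h2 := al_gt
  intro j x hx
  unfold rh
  fin_cases j
  · simp [ex] at hx
    rw [rot_lo hx.1 (by linarith [hx.2]), Bf0 P Q hx.2, Bf1 P Q (by linarith [hx.1])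
      (by linarith [hx.2])]
    simp [Mv]
  · simp [ex] at hx
    rw [rot_lo (by linarith [hx.1]) (by linarith [hx.2]), Bf1 P Q (by linarith [hx.1]) hx.2,
      Bf2 P Q (by linarith [hx.1])]
    simp [Mv]
  · simp [ex] at hx
    rw [rot_hi (by linarith [hx.1]) (by linarith [hx.2]), Bf2 P Q (x := x) (by linarith [hx.1]),
      Bf0 P Q (x := x + (al - 1)) (by linarith [hx.2])]
    simp [Mv]
  · simp [ex] at hx
    rw [rot_hi (by linarith [hx.1]) (by linarith [hx.2]), Bf2 P Q (x := x) (by linarith [hx.1]),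
      Bf1 P Q (x := x + (al - 1)) (by linarith [hx.1]) (by linarith [hx.2])]
    simp [Mv]

lemma mem_group (C P Q : G) : P ∈ Subgroup.closure (range (Mv C P Q)) ∧
    Q ∈ Subgroup.closure (range (Mv C P Q)) ∧ C ∈ Subgroup.closure (range (Mv C P Q)) := by
  have h : ∀ j, Mv C P Q j ∈ Subgroup.closure (range (Mv C P Q)) := fun j =>
    Subgroup.subset_closure (mem_range_self j)
  set H := Subgroup.closure (range (Mv C P Q))
  have h0 : P⁻¹ * C ∈ H := h 0
  have h2 : C * Q ∈ H := h 2
  have h3 : P⁻¹ * C * Q ∈ H := h 3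
  have hP : P ∈ H := by
    have := H.mul_mem h2 (H.inv_mem h3)
    have e : C * Q * (P⁻¹ * C * Q)⁻¹ = P := by group
    rwa [e] at this
  have hC : C ∈ H := by
    have := H.mul_mem hP h0
    have e : P * (P⁻¹ * C) = C := by group
    rwa [e] at this
  have hQ : Q ∈ H := by
    have := H.mul_mem (H.inv_mem hC) h2
    have e : C⁻¹ * (C * Q) = Q := by group
    rwa [e] at this
  exact ⟨hP, hQ, hC⟩

lemma Mv_dense (C : G) : ZariskiDense (Subgroup.closure (range (Mv C (Lm 1) (Um 1)))) := by
  obtain ⟨h1, h2, -⟩ := mem_group C (Lm 1) (Um 1)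
  exact dense_of_mem h2 h1

lemma rh_conj (C P Q : G) (x : ℝ) : Bf P Q (rot al x) * rh C P Q x * (Bf P Q x)⁻¹ = C := by
  unfold rh
  group

lemma Bf_meas (P Q : G) : MeasMat (Bf P Q) := by
  intro i j
  unfold Bf
  have : (fun x : ℝ => ((if x < 1 - 2 * al then 1 else if x < 1 - al then P else Q : G)) i j) =
      fun x : ℝ => if x < 1 - 2 * al then (1 : G) i j else if x < 1 - al then P i j else Q i j := by
    funext x
    split_ifs <;> rfl
  rw [this]
  exact Measurable.ite measurableSet_Iio measurable_const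
    (Measurable.ite measurableSet_Iio measurable_const measurable_const)

end Pool.Agent.R193.Coc
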