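import Pool.Agent.R193.Coc.Ex

set_option autoImplicit false

open Set MeasureTheory Filter

namespace Pool.Agent.R193.Coc

/-- rotation by a right angle -/
def Jm : G := ⟨!![0, -1; 1, 0], by simp [Matrix.det_fin_two]⟩

instance : IsProbabilityMeasure mu := ⟨by simp [mu]⟩

lemma erg : Ergodic (rot al) mu := rot_ergodic al_irr

lemma parabolic_U : ParabolicType (rot al) (rh (Um 1) (Lm 1) (Um 1)) := by
  refine ⟨Bf (Lm 1) (Um 1), fun _ => 1, fun _ => 1, Bf_meas _ _, measurable_const,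
    measurable_const, fun _ => one_pos, by simp, by simp, ?_⟩
  refine Eventually.of_forall fun x => ?_
  rw [rh_conj]
  simp [Um]

lemma elliptic_J : EllipticType (rot al) (rh Jm (Lm 1) (Um 1)) := by
  refine ⟨Bf (Lm 1) (Um 1), fun _ => Real.pi / 2, Bf_meas _ _, measurable_const, ?_⟩
  refine Eventually.of_forall fun x => ?_
  rw [rh_conj]
  simp [Jm]

lemma inv_entries (A : G) : A⁻¹ 0 0 = A 1 1 ∧ A⁻¹ 0 1 = -A 0 1 ∧ A⁻¹ 1 0 = -A 1 0 ∧
    A⁻¹ 1 1 = A 0 0 := by
  rw [Matrix.SpecialLinearGroup.coe_inv, Matrix.adjugate_fin_two]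
  simp

lemma mul_entries (A B : G) (i j : Fin 2) : (A * B) i j = A i 0 * B 0 j + A i 1 * B 1 j := by
  simp [Matrix.mul_apply, Fin.sum_univ_two]

/-- conjugating functions for the constant cocycle -/
lemma conj_E {C P Q : G} {D : ℝ → G} {V : ℝ → Matrix (Fin 2) (Fin 2) ℝ}
    (h : ∀ᵐ x ∂mu, ((D (rot al x) * rh C P Q x * (D x)⁻¹ : G) : Matrix (Fin 2) (Fin 2) ℝ) = V x) :
    ∀ᵐ x ∂mu, ((D (rot al x) * (Bf P Q (rot al x))⁻¹ * C * (D x * (Bf P Q x)⁻¹)⁻¹ : G) :
      Matrix (Fin 2) (Fin 2) ℝ) = V x := by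
  filter_upwards [h] with x hx
  rw [← hx]
  congr 1
  unfold rh
  group

lemma E_meas {D : ℝ → G} (hD : MeasMat D) (P Q : G) : MeasMat (fun x => D x * (Bf P Q x)⁻¹) := by
  intro i j
  have hB := Bf_meas P Q
  have : (fun x => (D x * (Bf P Q x)⁻¹) i j) = fun x => D x i 0 * (Bf P Q x)⁻¹ 0 j +
      D x i 1 * (Bf P Q x)⁻¹ 1 j := by
    funext x
    rw [mul_entries]
  rw [this]
  have hinv : ∀ k, Measurable fun x => (Bf P Q x)⁻¹ k j := by
    intro k
    fin_cases k <;> fin_cases j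
    · have : (fun x => (Bf P Q x)⁻¹ 0 0) = fun x => Bf P Q x 1 1 := by
        funext x; exact (inv_entries _).1
      exact this ▸ hB 1 1
    · have : (fun x => (Bf P Q x)⁻¹ 0 1) = fun x => -Bf P Q x 0 1 := by
        funext x; exact (inv_entries _).2.1
      exact this ▸ (hB 0 1).neg
    · have : (fun x => (Bf P Q x)⁻¹ 1 0) = fun x => -Bf P Q x 1 0 := by
        funext x; exact (inv_entries _).2.2.1
      exact this ▸ (hB 1 0).neg
    · have : (fun x => (Bf P Q x)⁻¹ 1 1) = fun x => Bf P Q x 0 0 := by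
        funext x; exact (inv_entries _).2.2.2
      exact this ▸ hB 0 0
  exact ((hD i 0).mul (hinv 0)).add ((hD i 1).mul (hinv 1))

/-- a rotation matrix has entries bounded by one -/
def IsRot (A : G) : Prop := A 0 0 = A 1 1 ∧ A 0 1 = -A 1 0

lemma IsRot.mul {A B : G} (hA : IsRot A) (hB : IsRot B) : IsRot (A * B) := by
  obtain ⟨a1, a2⟩ := hA
  obtain ⟨b1, b2⟩ := hB
  constructor
  · rw [mul_entries, mul_entries, a1, a2, b1, b2]; ring
  · rw [mul_entries, mul_entries, a1, a2, b1, b2]; ring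

lemma IsRot.bound {A : G} (hA : IsRot A) (i j : Fin 2) : |A i j| ≤ 1 := by
  obtain ⟨a1, a2⟩ := hA
  have hd : A 0 0 * A 1 1 - A 0 1 * A 1 0 = 1 := by
    have := A.2
    rw [Matrix.det_fin_two] at this
    exact this
  rw [a1, a2] at hd
  have h1 : A 1 1 ^ 2 ≤ 1 := by nlinarith [sq_nonneg (A 1 0)]
  have h2 : A 1 0 ^ 2 ≤ 1 := by nlinarith [sq_nonneg (A 1 1)]
  have k1 : |A 1 1| ≤ 1 := abs_le_one_iff_mul_self_le_one.2 (by nlinarith)
  have k2 : |A 1 0| ≤ 1 := abs_le_one_iff_mul_self_le_one.2 (by nlinarith)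
  fin_cases i <;> fin_cases j
  · show |A 0 0| ≤ 1
    rw [a1]; exact k1
  · show |A 0 1| ≤ 1
    rw [a2, abs_neg]; exact k2
  · exact k2
  · exact k1

lemma not_elliptic_U : ¬ EllipticType (rot al) (rh (Um 1) (Lm 1) (Um 1)) := by
  rintro ⟨D, θ, hD, -, h⟩
  have h1 := conj_E h
  set E : ℝ → G := fun x => D x * (Bf (Lm 1) (Um 1) x)⁻¹ with hE
  have hEm : MeasMat E := E_meas hD _ _
  have h2 : ∀ᵐ x ∂mu, IsRot (E (rot al x) * Um 1 * (E x)⁻¹) := by
    filter_upwards [h1] with x hx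
    constructor
    · show ((E (rot al x) * Um 1 * (E x)⁻¹ : G) : Matrix (Fin 2) (Fin 2) ℝ) 0 0 =
        ((E (rot al x) * Um 1 * (E x)⁻¹ : G) : Matrix (Fin 2) (Fin 2) ℝ) 1 1
      rw [hx]; simp
    · show ((E (rot al x) * Um 1 * (E x)⁻¹ : G) : Matrix (Fin 2) (Fin 2) ℝ) 0 1 =
        -((E (rot al x) * Um 1 * (E x)⁻¹ : G) : Matrix (Fin 2) (Fin 2) ℝ) 1 0
      rw [hx]; simp
  clear_value E
  have hmp : MeasurePreserving (rot al) mu mu := erg.toMeasurePreserving
  have h3 : ∀ᵐ x ∂mu, ∀ n : ℕ, IsRot (E ((rot al)^[n] (rot al x)) * Um 1 *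
      (E ((rot al)^[n] x))⁻¹) := by
    rw [ae_all_iff]
    intro n
    have := (hmp.iterate n).quasiMeasurePreserving.ae h2
    filter_upwards [this] with x hx
    rwa [← Function.iterate_succ_apply' (rot al) n x, Function.iterate_succ_apply] at hx
  have h4 : ∀ᵐ x ∂mu, ∀ n : ℕ, IsRot (E ((rot al)^[n] x) * Um n * (E x)⁻¹) := by
    filter_upwards [h3] with x hx
    intro n
    induction n with
    | zero =>
      have : E ((rot al)^[0] x) * Um ((0 : ℕ) : ℝ) * (E x)⁻¹ = 1 := by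
        rw [Nat.cast_zero, Um_zero]; simp
      rw [this]
      constructor <;> simp
    | succ n ih =>
      have e : E ((rot al)^[n + 1] x) * Um ((n + 1 : ℕ) : ℝ) * (E x)⁻¹ =
          (E ((rot al)^[n] (rot al x)) * Um 1 * (E ((rot al)^[n] x))⁻¹) *
          (E ((rot al)^[n] x) * Um n * (E x)⁻¹) := by
        rw [Function.iterate_succ_apply]
        have : Um ((n + 1 : ℕ) : ℝ) = Um 1 * Um n := by
          rw [← Um_add]; push_cast; rw [add_comm]
        rw [this]
        group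
      rw [e]
      exact (hx n).mul ih
  -- a set of positive measure on which `E` is bounded
  let S : ℕ → Set ℝ := fun k => {x | ∀ i j, |E x i j| ≤ k}
  have hS : ∀ k, MeasurableSet (S k) := by
    intro k
    have : S k = ⋂ i, ⋂ j, {x | |E x i j| ≤ k} := by
      ext x; simp [S]
    rw [this]
    exact MeasurableSet.iInter fun i => MeasurableSet.iInter fun j =>
      measurableSet_le (hEm i j).abs measurable_const
  obtain ⟨k, hk⟩ : ∃ k, mu (S k) ≠ 0 := by
    by_contra hcon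
    push Not at hcon
    have hU : (⋃ k, S k) = univ := by
      rw [eq_univ_iff_forall]
      intro x
      obtain ⟨n, hn⟩ := exists_nat_ge (|E x 0 0| + |E x 0 1| + |E x 1 0| + |E x 1 1|)
      rw [mem_iUnion]
      refine ⟨n, fun i j => ?_⟩
      have a := abs_nonneg (E x 0 0)
      have b := abs_nonneg (E x 0 1)
      have c := abs_nonneg (E x 1 0)
      have d := abs_nonneg (E x 1 1)
      fin_cases i <;> fin_cases j
      · show |E x 0 0| ≤ n
        linarith
      · show |E x 0 1| ≤ n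
        linarith
      · show |E x 1 0| ≤ n
        linarith
      · show |E x 1 1| ≤ n
        linarith
    have h0 : mu (⋃ k, S k) = 0 := measure_iUnion_null hcon
    rw [hU, measure_univ] at h0
    exact one_ne_zero h0
  obtain ⟨n, hn, hpos⟩ := hmp.conservative.exists_gt_measure_inter_ne_zero
    (hS k).nullMeasurableSet hk (4 * k * k)
  obtain ⟨x, ⟨hx1, hx2⟩, hx3⟩ : ∃ x, (x ∈ S k ∩ (rot al)^[n] ⁻¹' S k) ∧
      IsRot (E ((rot al)^[n] x) * Um n * (E x)⁻¹) := by
    by_contra hcon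
    push Not at hcon
    apply hpos
    have : mu {x | ¬ ∀ n : ℕ, IsRot (E ((rot al)^[n] x) * Um n * (E x)⁻¹)} = 0 := h4
    refine measure_mono_null ?_ this
    intro x hx hall
    exact hcon x hx (hall n)
  -- the upper right entry of `Um n`
  set R := E ((rot al)^[n] x) * Um n * (E x)⁻¹ with hR
  have e : Um n = (E ((rot al)^[n] x))⁻¹ * R * E x := by rw [hR]; group
  clear_value R
  have e1 : (n : ℝ) = ((E ((rot al)^[n] x))⁻¹ * R * E x) 0 1 := by
    rw [← e]; simp [Um]
  have b1 : ∀ i j, |E x i j| ≤ k := hx1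
  have b2 : ∀ i j, |E ((rot al)^[n] x) i j| ≤ k := hx2
  have b3 := fun i j => hx3.bound i j
  rw [mul_entries, mul_entries, mul_entries, (inv_entries _).1, (inv_entries _).2.1] at e1
  have hk0 : (0 : ℝ) ≤ k := Nat.cast_nonneg k
  have t : ∀ a b c : ℝ, |a| ≤ k → |b| ≤ 1 → |c| ≤ k → a * b * c ≤ k * k := by
    intro a b c ha hb hc
    have h1 : |a * b * c| ≤ k * 1 * k := by
      rw [abs_mul, abs_mul]
      exact mul_le_mul (mul_le_mul ha hb (abs_nonneg _) hk0) hc (abs_nonneg _) (by positivity)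
    have := le_abs_self (a * b * c)
    linarith
  have t1 := t _ _ _ (b2 1 1) (b3 0 0) (b1 0 1)
  have t2 := t _ _ _ (show |-E ((rot al)^[n] x) 0 1| ≤ k by rw [abs_neg]; exact b2 0 1) (b3 1 0)
    (b1 0 1)
  have t3 := t _ _ _ (b2 1 1) (b3 0 1) (b1 1 1)
  have t4 := t _ _ _ (show |-E ((rot al)^[n] x) 0 1| ≤ k by rw [abs_neg]; exact b2 0 1) (b3 1 1)
    (b1 1 1)
  have hn' : (4 * k * k : ℝ) < n := by exact_mod_cast hn
  nlinarith

lemma not_parabolic_J : ¬ ParabolicType (rot al) (rh Jm (Lm 1) (Um 1)) := by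
  rintro ⟨D, v, m, hD, -, -, hv, -, -, h⟩
  have h1 := conj_E h
  set E : ℝ → G := fun x => D x * (Bf (Lm 1) (Um 1) x)⁻¹ with hE
  have hEm : MeasMat E := E_meas hD _ _
  -- the first column of the inverse
  set p : ℝ → ℝ := fun x => E x 1 1 with hp
  set q : ℝ → ℝ := fun x => -E x 1 0 with hq
  have hne : ∀ x, 0 < p x ^ 2 + q x ^ 2 := by
    intro x
    have hd : E x 0 0 * E x 1 1 - E x 0 1 * E x 1 0 = 1 := by
      have := (E x).2
      rw [Matrix.det_fin_two] at this
      exact this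
    by_contra hcon
    push Not at hcon
    have a1 : E x 1 1 = 0 := by
      have : p x ^ 2 ≤ 0 := by nlinarith [sq_nonneg (q x)]
      have := pow_eq_zero_iff (n := 2) two_ne_zero |>.1 (le_antisymm this (sq_nonneg _))
      exact this
    have a2 : E x 1 0 = 0 := by
      have : q x ^ 2 ≤ 0 := by nlinarith [sq_nonneg (p x)]
      have := pow_eq_zero_iff (n := 2) two_ne_zero |>.1 (le_antisymm this (sq_nonneg _))
      exact neg_eq_zero.1 this
    rw [a1, a2] at hd
    simp at hd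
  have h2 : ∀ᵐ x ∂mu, -q x = v x * p (rot al x) ∧ p x = v x * q (rot al x) := by
    filter_upwards [h1] with x hx
    set V : G := E (rot al x) * Jm * (E x)⁻¹ with hV
    have hV0 : V 0 0 = v x := by
      show (V : Matrix (Fin 2) (Fin 2) ℝ) 0 0 = _
      rw [hV, hx]; simp
    have hV1 : V 1 0 = 0 := by
      show (V : Matrix (Fin 2) (Fin 2) ℝ) 1 0 = _
      rw [hV, hx]; simp
    have e : Jm * (E x)⁻¹ = (E (rot al x))⁻¹ * V := by rw [hV]; group
    have e0 : (Jm * (E x)⁻¹) 0 0 = ((E (rot al x))⁻¹ * V) 0 0 := by rw [e]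
    have e1 : (Jm * (E x)⁻¹) 1 0 = ((E (rot al x))⁻¹ * V) 1 0 := by rw [e]
    rw [mul_entries, mul_entries, hV0, hV1, (inv_entries _).1, (inv_entries _).2.2.1,
      (inv_entries _).1, (inv_entries _).2.1] at e0
    rw [mul_entries, mul_entries, hV0, hV1, (inv_entries _).1, (inv_entries _).2.2.1,
      (inv_entries _).2.2.1, (inv_entries _).2.2.2] at e1
    have j0 : Jm 0 0 = 0 := by simp [Jm]
    have j1 : Jm 0 1 = -1 := by simp [Jm]
    have j2 : Jm 1 0 = 1 := by simp [Jm]
    have j3 : Jm 1 1 = 0 := by simp [Jm]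
    rw [j0, j1] at e0
    rw [j2, j3] at e1
    constructor
    · show -(-E x 1 0) = v x * E (rot al x) 1 1
      linarith
    · show E x 1 1 = v x * (-E (rot al x) 1 0)
      linarith
  -- two functions which change sign under the rotation
  set F : ℝ → ℝ := fun x => (p x ^ 2 - q x ^ 2) / (p x ^ 2 + q x ^ 2) with hF
  set H : ℝ → ℝ := fun x => 2 * (p x * q x) / (p x ^ 2 + q x ^ 2) with hH
  have hpm : Measurable p := hEm 1 1
  have hqm : Measurable q := (hEm 1 0).neg
  have hFm : Measurable F := ((hpm.pow_const 2).sub (hqm.pow_const 2)).div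
    ((hpm.pow_const 2).add (hqm.pow_const 2))
  have hHm : Measurable H := ((hpm.mul hqm).const_mul 2).div
    ((hpm.pow_const 2).add (hqm.pow_const 2))
  have hsign : ∀ᵐ x ∂mu, F (rot al x) = -F x ∧ H (rot al x) = -H x := by
    filter_upwards [h2] with x ⟨e0, e1⟩
    have hvx := hv x
    have n1 := hne x
    have n2 := hne (rot al x)
    have ep : p (rot al x) = -q x / v x := by rw [e0]; field_simp
    have eq : q (rot al x) = p x / v x := by rw [e1]; field_simp
    have n3 : p x ^ 2 + q x ^ 2 ≠ 0 := n1.ne'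
    have n4 : q x ^ 2 + p x ^ 2 ≠ 0 := by rw [add_comm]; exact n3
    constructor
    · show (p (rot al x) ^ 2 - q (rot al x) ^ 2) / (p (rot al x) ^ 2 + q (rot al x) ^ 2) =
        -((p x ^ 2 - q x ^ 2) / (p x ^ 2 + q x ^ 2))
      rw [ep, eq]
      field_simp
      ring
    · show 2 * (p (rot al x) * q (rot al x)) / (p (rot al x) ^ 2 + q (rot al x) ^ 2) =
        -(2 * (p x * q x) / (p x ^ 2 + q x ^ 2))
      rw [ep, eq]
      field_simp
      ring
  have hmp : MeasurePreserving (rot al) mu mu := erg.toMeasurePreserving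
  have erg2 : Ergodic (rot (2 * al)) mu := by
    apply rot_ergodic
    have := al_irr.natCast_mul (m := 2) (by norm_num)
    simpa using this
  have hrot2 : ∀ x, rot al (rot al x) = rot (2 * al) x := by
    intro x; rw [rot_rot, two_mul]
  have const : ∀ f : ℝ → ℝ, Measurable f → (∀ᵐ x ∂mu, f (rot al x) = -f x) →
      ∀ᵐ x ∂mu, f x = 0 := by
    intro f hf hs
    have hs2 : ∀ᵐ x ∂mu, f (rot al (rot al x)) = -f (rot al x) :=
      hmp.quasiMeasurePreserving.ae hs
    have hinv : f ∘ rot (2 * al) =ᵐ[mu] f := by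
      filter_upwards [hs, hs2] with x a b
      show f (rot (2 * al) x) = f x
      rw [← hrot2, b, a, neg_neg]
    obtain ⟨c, hc⟩ := erg2.ae_eq_const_of_ae_eq_comp₀ hf.nullMeasurable hinv
    have hc2 : ∀ᵐ x ∂mu, f (rot al x) = c := hmp.quasiMeasurePreserving.ae hc
    filter_upwards [hc, hc2, hs] with x a b e
    have a' : f x = c := a
    rw [a'] at e ⊢
    rw [b] at e
    linarith
  have k1 := const F hFm (hsign.mono fun x hx => hx.1)
  have k2 := const H hHm (hsign.mono fun x hx => hx.2)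
  obtain ⟨x, hx1, hx2⟩ := (k1.and k2).exists
  have n1 := hne x
  have hx1' : p x ^ 2 - q x ^ 2 = 0 := by
    have : (p x ^ 2 - q x ^ 2) / (p x ^ 2 + q x ^ 2) = 0 := hx1
    rcases div_eq_zero_iff.1 this with h | h
    · exact h
    · exact absurd h n1.ne'
  have hx2' : 2 * (p x * q x) = 0 := by
    have : 2 * (p x * q x) / (p x ^ 2 + q x ^ 2) = 0 := hx2
    rcases div_eq_zero_iff.1 this with h | h
    · exact h
    · exact absurd h n1.ne'
  have hz : p x * q x = 0 := by linarith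
  rcases mul_eq_zero.1 hz with h | h
  · rw [h] at hx1' n1
    nlinarith
  · rw [h] at hx1' n1
    nlinarith

end Pool.Agent.R193.Coc
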