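import Pool.Agent.R193.Coc.Defs

set_option autoImplicit false

open Set MeasureTheory Filter

namespace Pool.Agent.R193.Coc

/-- upper unipotent -/
def Um (t : ℝ) : G := ⟨!![1, t; 0, 1], by simp [Matrix.det_fin_two]⟩

/-- lower unipotent -/
def Lm (t : ℝ) : G := ⟨!![1, 0; t, 1], by simp [Matrix.det_fin_two]⟩

lemma Um_add (s t : ℝ) : Um (s + t) = Um s * Um t := by
  ext i j
  fin_cases i <;> fin_cases j <;> simp [Um, Matrix.mul_apply, Fin.sum_univ_two] <;> ring

lemma Lm_add (s t : ℝ) : Lm (s + t) = Lm s * Lm t := by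
  ext i j
  fin_cases i <;> fin_cases j <;> simp [Lm, Matrix.mul_apply, Fin.sum_univ_two] <;> ring

lemma Um_zero : Um 0 = 1 := by
  ext i j
  fin_cases i <;> fin_cases j <;> simp [Um]

lemma Lm_zero : Lm 0 = 1 := by
  ext i j
  fin_cases i <;> fin_cases j <;> simp [Lm]

lemma Um_nat (n : ℕ) : Um n = Um 1 ^ n := by
  induction n with
  | zero => simp [Um_zero]
  | succ n ih => rw [pow_succ, ← ih, ← Um_add]; push_cast; rfl

lemma Lm_nat (n : ℕ) : Lm n = Lm 1 ^ n := by
  induction n with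
  | zero => simp [Lm_zero]
  | succ n ih => rw [pow_succ, ← ih, ← Lm_add]; push_cast; rfl

/-- evaluation at a matrix -/
noncomputable def ev (A : G) (p : MvPolynomial (Fin 2 × Fin 2) ℝ) : ℝ :=
  MvPolynomial.eval (fun ij => A ij.1 ij.2) p

/-- Zariski closure -/
def Zc (H : Subgroup G) : Set G := {A | ∀ p, (∀ h ∈ H, ev h p = 0) → ev A p = 0}

lemma Zc_mul {H : Subgroup G} {A h : G} (hA : A ∈ Zc H) (hh : h ∈ H) : A * h ∈ Zc H := by
  intro p hp
  let q : MvPolynomial (Fin 2 × Fin 2) ℝ := MvPolynomial.bind₁ (fun ij : Fin 2 × Fin 2 =>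
    MvPolynomial.X (ij.1, 0) * MvPolynomial.C (h 0 ij.2) +
    MvPolynomial.X (ij.1, 1) * MvPolynomial.C (h 1 ij.2)) p
  have hq : ∀ B : G, ev B q = ev (B * h) p := by
    intro B
    show MvPolynomial.eval _ (MvPolynomial.bind₁ _ p) = MvPolynomial.eval _ p
    rw [MvPolynomial.eval, MvPolynomial.eval₂Hom_bind₁, MvPolynomial.eval]
    congr 2
    funext ij
    simp [Matrix.mul_apply, Fin.sum_univ_two]
  rw [← hq]
  apply hA
  intro k hk
  rw [hq]
  exact hp _ (H.mul_mem hk hh)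

/-- a one-parameter family of polynomial matrices -/
lemma Zc_curve {H : Subgroup G} (A : G) (γ : ℝ → G) (g : Fin 2 × Fin 2 → Polynomial ℝ)
    (hγ : ∀ t ij, (γ t) ij.1 ij.2 = (g ij).eval t)
    (hn : ∀ n : ℕ, A * γ n ∈ Zc H) (t : ℝ) : A * γ t ∈ Zc H := by
  intro p hp
  let P : Polynomial ℝ := MvPolynomial.aeval (fun ij : Fin 2 × Fin 2 =>
    Polynomial.C (A ij.1 0) * g (0, ij.2) + Polynomial.C (A ij.1 1) * g (1, ij.2)) p
  have hP : ∀ s : ℝ, P.eval s = ev (A * γ s) p := by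
    intro s
    show Polynomial.eval s (MvPolynomial.aeval _ p) = MvPolynomial.eval _ p
    rw [← Polynomial.coe_evalRingHom, MvPolynomial.aeval_def, MvPolynomial.eval₂_eq',
      MvPolynomial.eval_eq', map_sum]
    refine Finset.sum_congr rfl fun m _ => ?_
    simp only [map_mul, map_prod, map_pow, Polynomial.coe_evalRingHom, Polynomial.algebraMap_eq,
      Polynomial.eval_C]
    congr 1
    refine Finset.prod_congr rfl fun ij _ => ?_
    congr 1
    rw [Polynomial.eval_add, Polynomial.eval_mul, Polynomial.eval_mul, Polynomial.eval_C,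
      Polynomial.eval_C, ← hγ s (0, ij.2), ← hγ s (1, ij.2)]
    simp [Matrix.mul_apply, Fin.sum_univ_two]
  have h0 : P = 0 := by
    apply Polynomial.eq_zero_of_infinite_isRoot
    refine Set.Infinite.mono ?_ (Set.infinite_range_of_injective (Nat.cast_injective (R := ℝ)))
    rintro _ ⟨n, rfl⟩
    show P.eval (n : ℝ) = 0
    rw [hP]
    exact hn n p hp
  rw [← hP, h0, Polynomial.eval_zero]

lemma Zc_U {H : Subgroup G} (hU : Um 1 ∈ H) {A : G} (hA : A ∈ Zc H) (t : ℝ) :
    A * Um t ∈ Zc H := by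
  refine Zc_curve A Um (fun ij => if ij.1 = 0 then (if ij.2 = 0 then 1 else Polynomial.X) else
    (if ij.2 = 0 then 0 else 1)) ?_ ?_ t
  · rintro s ⟨i, j⟩
    fin_cases i <;> fin_cases j <;> simp [Um]
  · intro n
    rw [Um_nat]
    exact Zc_mul hA (H.pow_mem hU n)

lemma Zc_L {H : Subgroup G} (hL : Lm 1 ∈ H) {A : G} (hA : A ∈ Zc H) (t : ℝ) :
    A * Lm t ∈ Zc H := by
  refine Zc_curve A Lm (fun ij => if ij.1 = 0 then (if ij.2 = 0 then 1 else 0) else
    (if ij.2 = 0 then Polynomial.X else 1)) ?_ ?_ t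
  · rintro s ⟨i, j⟩
    fin_cases i <;> fin_cases j <;> simp [Lm]
  · intro n
    rw [Lm_nat]
    exact Zc_mul hA (H.pow_mem hL n)

lemma Zc_one (H : Subgroup G) : (1 : G) ∈ Zc H := fun _ hp => hp 1 H.one_mem

lemma Zc_of_ne {H : Subgroup G} (hU : Um 1 ∈ H) (hL : Lm 1 ∈ H) {A : G} (h : A 1 0 ≠ 0) :
    A ∈ Zc H := by
  have e : A = 1 * Um ((A 0 0 - 1) / A 1 0) * Lm (A 1 0) * Um ((A 1 1 - 1) / A 1 0) := by
    have hd : A 0 0 * A 1 1 - A 0 1 * A 1 0 = 1 := by
      have := A.2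
      rw [Matrix.det_fin_two] at this
      exact this
    ext i j
    fin_cases i <;> fin_cases j <;>
      simp [Um, Lm, Matrix.mul_apply, Fin.sum_univ_two] <;> field_simp <;> linarith
  rw [e]
  exact Zc_U hU (Zc_L hL (Zc_U hU (Zc_one H) _) _) _

/-- a group containing the two elementary matrices is Zariski dense -/
theorem dense_of_mem {H : Subgroup G} (hU : Um 1 ∈ H) (hL : Lm 1 ∈ H) : ZariskiDense H := by
  intro p hp A
  have key : A ∈ Zc H := by
    by_cases h : A 1 0 = 0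
    · have hd : A 0 0 * A 1 1 - A 0 1 * A 1 0 = 1 := by
        have := A.2
        rw [Matrix.det_fin_two] at this
        exact this
      have h1 : (A * Lm 1) 1 0 ≠ 0 := by
        have : (A * Lm 1) 1 0 = A 1 0 + A 1 1 := by
          simp [Lm, Matrix.mul_apply, Fin.sum_univ_two]
        rw [this, h, zero_add]
        intro h2
        rw [h, h2] at hd
        simp at hd
      have h2 := Zc_L hL (Zc_of_ne hU hL h1) (-1)
      have h3 : A * Lm 1 * Lm (-1) = A := by
        rw [mul_assoc, ← Lm_add, add_neg_cancel, Lm_zero, mul_one]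
      rwa [h3] at h2
    · exact Zc_of_ne hU hL h
  exact key p hp

end Pool.Agent.R193.Coc
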